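import Mathlib

/-!
# Subnormal series with factors of prime order or of small order
-/

set_option autoImplicit false

namespace Pool.Agent.Helper72.LGS

/-- there is a subnormal series whose factors have prime order or order at most `M` -/
def Ser (M : ℕ) (G : Type*) [Group G] : Prop :=
  ∃ (r : ℕ) (f : ℕ → Subgroup G), f 0 = ⊥ ∧ f r = ⊤ ∧ ∀ i < r, f i ≤ f (i + 1) ∧
    ((f i).subgroupOf (f (i + 1))).Normal ∧
      (((f i).relIndex (f (i + 1))).Prime ∨ (f i).relIndex (f (i + 1)) ≤ M)

end Pool.Agent.Helper72.LGS
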