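import Pool.Agent.Helper72.LGS.Val
import Pool.Agent.Helper72.LGS.Defs
import Pool.Agent.Helper75.LG.Cnt
import Pool.Agent.Helper75.LG.Grp

/-!
# Counting the values
-/

set_option autoImplicit false

namespace Pool.Agent.Helper72.LGS

open Subgroup Finset Pool.Agent.Helper72.LG

lemma VV_restrict {X : Type*} [Group X] [Finite X] (S : Finset ℕ) (K K' : ℕ → Subgroup X)
    (L : Subgroup X) (h : ∀ p ∈ S, K p = K' p) : VV X S K L = VV X S K' L := by
  classical
  unfold VV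
  refine sum_congr rfl fun H _ => ?_
  congr 1
  exact prod_congr rfl fun p hp => by rw [h p hp]

/-- the possible values -/
def VS (M Kb : ℕ) (S : Finset ℕ) : Set ℕ :=
  {v | ∃ (X : Type) (_ : Group X) (_ : Finite X) (K : ℕ → Subgroup X) (L : Subgroup X),
    Nat.card X ≤ Kb ∧ Ser M X ∧ v = VV X S K L}

/-- the statement on the number of types -/
def Types (M Kb TB : ℕ) : Prop :=
  ∃ (T : Type) (_ : Finite T) (code : (H : Type) → Group H → T),
      Nat.card T ≤ TB ∧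
      ∀ (H H' : Type) (iH : Group H) (iH' : Group H'), Finite H → Finite H' →
        Nat.card H ≤ Kb → Nat.card H' ≤ Kb → Ser M H → Ser M H' →
        code H iH = code H' iH' → Nonempty (H ≃* H')

lemma card_sub_le {X : Type*} [Group X] [Finite X] {Kb : ℕ} (h : Nat.card X ≤ Kb) :
    Nat.card (Subgroup X) ≤ Kb ^ Nat.log 2 Kb := by
  have h0 : 0 < Nat.card X := Nat.card_pos
  refine (_root_.LG.card_subgroup_le X).trans ?_
  exact (Nat.pow_le_pow_left h _).trans (Nat.pow_le_pow_right (lt_of_lt_of_le h0 h)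
    (Nat.log_mono_right h))

theorem VS_bound {M Kb TB : ℕ} (hT : Types M Kb TB) (S : Finset ℕ) :
    ∃ A : Finset ℕ, A.card ≤ TB * (Kb ^ Nat.log 2 Kb) ^ (S.card + 1) ∧ VS M Kb S ⊆ A := by
  classical
  obtain ⟨T, hTfin, code, hTB, hcode⟩ := hT
  have hc : ∀ c : T, ∃ A : Finset ℕ, A.card ≤ (Kb ^ Nat.log 2 Kb) ^ (S.card + 1) ∧
      ∀ (X : Type) (iX : Group X) (_ : Finite X) (K : ℕ → Subgroup X) (L : Subgroup X),
        Nat.card X ≤ Kb → Ser M X → code X iX = c → VV X S K L ∈ A := by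
    intro c
    by_cases h : ∃ (X : Type) (iX : Group X), Finite X ∧ Nat.card X ≤ Kb ∧ Ser M X ∧ code X iX = c
    · obtain ⟨X₀, iX₀, hf₀, hk₀, hs₀, hc₀⟩ := h
      have : Finite ((S → Subgroup X₀) × Subgroup X₀) := inferInstance
      have hFt : Fintype ((S → Subgroup X₀) × Subgroup X₀) := Fintype.ofFinite _
      refine ⟨univ.image (fun f : (S → Subgroup X₀) × Subgroup X₀ =>
        VV X₀ S (fun p => if h : p ∈ S then f.1 ⟨p, h⟩ else ⊥) f.2), ?_, ?_⟩
      · refine card_image_le.trans ?_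
        rw [card_univ, ← Nat.card_eq_fintype_card, Nat.card_prod, Nat.card_fun, pow_succ]
        have h1 := card_sub_le hk₀
        refine Nat.mul_le_mul ?_ h1
        rw [Nat.card_eq_fintype_card (α := S), Fintype.card_coe]
        exact Nat.pow_le_pow_left h1 _
      · intro X iX hf K L hk hs hcX
        obtain ⟨φ⟩ := hcode X X₀ iX iX₀ hf hf₀ hk hk₀ hs hs₀ (hcX.trans hc₀.symm)
        rw [mem_image]
        refine ⟨(fun p => (K p).map φ.toMonoidHom, L.map φ.toMonoidHom), mem_univ _, ?_⟩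
        rw [VV_congr φ S K L]
        refine VV_restrict S _ _ _ fun p hp => ?_
        simp only [dif_pos hp]
    · refine ⟨∅, Nat.zero_le _, fun X iX hf K L hk hs hcX => ?_⟩
      exact absurd ⟨X, iX, hf, hk, hs, hcX⟩ h
  choose A hA1 hA2 using hc
  have hFt : Fintype T := Fintype.ofFinite T
  refine ⟨univ.biUnion A, ?_, ?_⟩
  · refine card_biUnion_le.trans ?_
    calc ∑ c : T, (A c).card ≤ ∑ _c : T, (Kb ^ Nat.log 2 Kb) ^ (S.card + 1) :=
          sum_le_sum fun c _ => hA1 c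
      _ = Nat.card T * (Kb ^ Nat.log 2 Kb) ^ (S.card + 1) := by
          rw [sum_const, card_univ, smul_eq_mul, Nat.card_eq_fintype_card]
      _ ≤ _ := Nat.mul_le_mul_right _ hTB
  · rintro v ⟨X, iX, hf, K, L, hk, hs, rfl⟩
    rw [mem_coe, mem_biUnion]
    exact ⟨code X iX, mem_univ _, hA2 _ X iX hf K L hk hs rfl⟩

/-- the number of products of a cofactor and a prime divisor of a value -/
theorem count_values {M Kb TB : ℕ} (hT : Types M Kb TB) {Gd Ms : Finset ℕ} {Sf : ℕ → Finset ℕ}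
    {W Vmax : ℕ} (hKb : 1 ≤ Kb)
    (h : ∀ n ∈ Gd, ∃ m ∈ Ms, ∃ q, n = m * q ∧ q.Prime ∧ ∃ v ∈ VS M Kb (Sf m),
      v ≠ 0 ∧ q ∣ v ∧ v ≤ Vmax) (hS : ∀ m ∈ Ms, (Sf m).card ≤ W) :
    Gd.card ≤ Ms.card * (TB * (Kb ^ Nat.log 2 Kb) ^ (W + 1) * Nat.log 2 Vmax) := by
  classical
  have hA : ∀ m : ℕ, ∃ A : Finset ℕ, A.card ≤ TB * (Kb ^ Nat.log 2 Kb) ^ ((Sf m).card + 1) ∧
    VS M Kb (Sf m) ⊆ A := fun m => VS_bound hT (Sf m)
  choose A hA1 hA2 using hA
  have hsub : Gd ⊆ Ms.biUnion (fun m => ((A m).filter (fun v => v ≠ 0 ∧ v ≤ Vmax)).biUnion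
      (fun v => v.primeFactors.image (fun q => m * q))) := by
    intro n hn
    obtain ⟨m, hm, q, hnq, hq, v, hv, hv0, hqv, hvV⟩ := h n hn
    rw [mem_biUnion]
    refine ⟨m, hm, ?_⟩
    rw [mem_biUnion]
    refine ⟨v, mem_filter.2 ⟨hA2 m hv, hv0, hvV⟩, ?_⟩
    rw [mem_image]
    exact ⟨q, Nat.mem_primeFactors.2 ⟨hq, hqv, hv0⟩, hnq.symm⟩
  refine (card_le_card hsub).trans (card_biUnion_le.trans ?_)
  rw [← smul_eq_mul]
  refine sum_le_card_nsmul _ _ _ fun m hm => ?_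
  refine card_biUnion_le.trans ?_
  calc ∑ v ∈ (A m).filter (fun v => v ≠ 0 ∧ v ≤ Vmax), (v.primeFactors.image (fun q => m * q)).card ≤
      ∑ _v ∈ (A m).filter (fun v => v ≠ 0 ∧ v ≤ Vmax), Nat.log 2 Vmax := by
        refine sum_le_sum fun v hv => ?_
        rw [mem_filter] at hv
        refine card_image_le.trans ((_root_.LG.card_primeFactors_le hv.2.1).trans ?_)
        exact Nat.log_mono_right hv.2.2
    _ = ((A m).filter (fun v => v ≠ 0 ∧ v ≤ Vmax)).card * Nat.log 2 Vmax := by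
        rw [sum_const, smul_eq_mul]
    _ ≤ (TB * (Kb ^ Nat.log 2 Kb) ^ (W + 1)) * Nat.log 2 Vmax := by
        refine Nat.mul_le_mul_right _ ?_
        refine (card_le_card (filter_subset _ _)).trans ((hA1 m).trans (Nat.mul_le_mul_left _ ?_))
        exact Nat.pow_le_pow_right (Nat.one_le_pow _ _ hKb) (by have := hS m hm; omega)

end Pool.Agent.Helper72.LGS
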