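import Pool.Agent.Helper72.LGS.Main
import Pool.Agent.Helper72.LG.Main

/-!
# The real form of the theorem
-/

set_option autoImplicit false

namespace Pool.Agent.Helper72.LGS

open Subgroup Finset Pool.Agent.Helper72.LG

lemma Ser.mono {M M' : ℕ} (h : M ≤ M') {G : Type*} [Group G] (hG : Ser M G) : Ser M' G := by
  obtain ⟨r, f, h0, h1, h2⟩ := hG
  refine ⟨r, f, h0, h1, fun i hi => ?_⟩
  obtain ⟨a, b, c⟩ := h2 i hi
  exact ⟨a, b, c.imp_right fun h3 => h3.trans h⟩

open scoped Classical in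
/-- `n` is the order of a group with small nonabelian composition factors and a large greatest
common divisor of the order and the sum of the orders of the normal subgroups -/
def Bad (M : ℕ) (Z : ℝ) (n : ℕ) : Prop :=
  ∃ (G : Type) (_ : Group G) (_ : Fintype G), Fintype.card G = n ∧
    (Group.IsSolvable G ∨ Ser M G) ∧
    Z < (Nat.gcd n (∑ H : {H : Subgroup G // H.Normal}, Nat.card H) : ℝ)

lemma sum_subtype_nat (G : Type*) [Group G] [Finite G] [Fintype {H : Subgroup G // H.Normal}] :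
    ∑ H : {H : Subgroup G // H.Normal}, Nat.card H = ∑ H ∈ nsg G, Nat.card H := by
  rw [← Finset.sum_subtype (nsg G) (p := fun H : Subgroup G => H.Normal) (fun H => mem_nsg)
    (fun H => Nat.card H)]

lemma exists_root {D l : ℕ} (hD : 1 ≤ D) : ∃ s : ℕ, s ^ D ≤ l ∧ l < (s + 1) ^ D := by
  classical
  have hex : ∃ s : ℕ, l < (s + 1) ^ D := ⟨l, by
    calc l < l + 1 := Nat.lt_succ_self l
      _ = (l + 1) ^ 1 := (pow_one _).symm
      _ ≤ (l + 1) ^ D := Nat.pow_le_pow_right (Nat.succ_pos l) hD⟩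
  refine ⟨Nat.find hex, ?_, Nat.find_spec hex⟩
  rcases Nat.eq_zero_or_pos (Nat.find hex) with h | h
  · rw [h, zero_pow (by omega)]
    exact Nat.zero_le _
  · have h1 := Nat.find_min hex (m := Nat.find hex - 1) (by omega)
    rw [Nat.sub_add_cancel h] at h1
    exact not_lt.1 h1

theorem final_real (hT : ∀ s, 1 ≤ s → Types s (KB s) (TBf s))
    (hq : ∀ M : ℕ, 1 ≤ M → ∀ (G : Type) (_ : Group G) (_ : Finite G), Ser M G →
      ∀ (E : Subgroup G) (_ : E.Normal), Ser M (G ⧸ E))
    (hsol : ∀ M : ℕ, 1 ≤ M → ∀ (G : Type) (_ : Group G) (_ : Finite G), Group.IsSolvable G → Ser M G)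
    {ε : ℝ} (hε : 0 < ε) : ∃ c : ℝ, 0 < c ∧ ∃ C : ℝ, ∀ x : ℝ, 2 ≤ x →
      (Set.ncard {n : ℕ | (n : ℝ) ≤ x ∧
        Bad ⌊Real.log x ^ c⌋₊ (Real.exp (Real.log x ^ ε)) n} : ℝ) ≤
        C * x * Real.exp (-(Real.log x ^ c)) := by
  classical
  obtain ⟨D, hD⟩ := exists_nat_ge (13 / ε)
  have hD1 : 1 ≤ D := by
    rcases Nat.eq_zero_or_pos D with h | h
    · rw [h, Nat.cast_zero] at hD
      exact absurd hD (not_le.2 (by positivity))
    · exact h
  have hDε : 13 ≤ (D : ℝ) * ε := by
    rw [div_le_iff₀ hε] at hD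
    exact hD
  have hDR : (1 : ℝ) ≤ D := by exact_mod_cast hD1
  obtain ⟨s₀, hs₀1, hs₀⟩ := main_typ D
  obtain ⟨s₂, hs₂⟩ := exists_nat_ge ((Real.log 2) ^ (-ε))
  have hl2 : (0 : ℝ) < Real.log 2 := Real.log_pos (by norm_num)
  have hl2' : Real.log 2 < 1 := by linarith [Real.log_two_lt_d9]
  have hl2'' : (0.69 : ℝ) < Real.log 2 := by linarith [Real.log_two_gt_d9]
  set s₁ := max (max s₀ s₂) 4 with hs₁
  refine ⟨1 / (2 * D), by positivity, max 4 (Real.exp s₁), fun x hx => ?_⟩
  set c : ℝ := 1 / (2 * D) with hc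
  have hc0 : 0 < c := by positivity
  set N := ⌊x⌋₊ with hN
  have hx0 : 0 ≤ x := by linarith
  have hNx : (N : ℝ) ≤ x := Nat.floor_le hx0
  have hxN : x < N + 1 := Nat.lt_floor_add_one x
  have hN2 : 2 ≤ N := Nat.le_floor (by exact_mod_cast hx)
  have hlogx : 0 < Real.log x := Real.log_pos (by linarith)
  set M := ⌊Real.log x ^ c⌋₊ with hM
  set Z := Real.exp (Real.log x ^ ε) with hZ
  have hfin : {n : ℕ | (n : ℝ) ≤ x ∧ Bad M Z n}.Finite := by
    refine (Set.finite_Iic N).subset fun n hn => ?_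
    exact Nat.le_floor hn.1
  set A := hfin.toFinset with hA
  have hAmem : ∀ n ∈ A, n ∈ Ioc 0 N ∧ Bad M Z n := by
    intro n hn
    rw [hA, Set.Finite.mem_toFinset] at hn
    refine ⟨mem_Ioc.2 ⟨?_, Nat.le_floor hn.1⟩, hn.2⟩
    obtain ⟨G, iG, iF, hcard, -⟩ := hn.2
    rw [← hcard]
    exact Fintype.card_pos
  rw [Set.ncard_eq_toFinset_card _ hfin, ← hA]
  have hAN : (A.card : ℝ) ≤ x := by
    have h1 : A.card ≤ N := by
      calc A.card ≤ (Ioc 0 N).card := card_le_card fun n hn => (hAmem n hn).1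
        _ = N := by rw [Nat.card_Ioc, Nat.sub_zero]
    exact (by exact_mod_cast h1 : (A.card : ℝ) ≤ N).trans hNx
  obtain ⟨s, hsl, hsu⟩ := exists_root (l := Nat.log 2 N) hD1
  have hN0 : N ≠ 0 := by omega
  have hNlow : 2 ^ (s ^ D) ≤ N :=
    (Nat.pow_le_pow_right (by norm_num) hsl).trans (Nat.pow_log_le_self 2 hN0)
  have hNup : N + 1 ≤ 2 ^ ((s + 1) ^ D) := by
    calc N + 1 ≤ 2 ^ (Nat.log 2 N + 1) := Nat.lt_pow_succ_log_self (by norm_num) N
      _ ≤ 2 ^ ((s + 1) ^ D) := Nat.pow_le_pow_right (by norm_num) hsu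
  have hlog : Real.log x ≤ ((s : ℝ) + 1) ^ D := by
    have h1 : x ≤ (2 : ℝ) ^ ((s + 1) ^ D) := by
      have h2 : ((N + 1 : ℕ) : ℝ) ≤ ((2 ^ ((s + 1) ^ D) : ℕ) : ℝ) := by exact_mod_cast hNup
      push_cast at h2
      linarith
    have h2 : Real.log x ≤ Real.log ((2 : ℝ) ^ ((s + 1) ^ D)) := Real.log_le_log (by linarith) h1
    rw [Real.log_pow] at h2
    have h4 : (((s + 1) ^ D : ℕ) : ℝ) * Real.log 2 ≤ ((s + 1) ^ D : ℕ) * 1 :=
      mul_le_mul_of_nonneg_left hl2'.le (Nat.cast_nonneg _)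
    push_cast at h2 h4
    linarith
  have hlogc : Real.log x ^ c ≤ Real.sqrt (s + 1) := by
    calc Real.log x ^ c ≤ (((s : ℝ) + 1) ^ D) ^ c := Real.rpow_le_rpow hlogx.le hlog hc0.le
      _ = ((s : ℝ) + 1) ^ ((D : ℝ) * c) := by
          rw [Real.rpow_mul (by positivity), Real.rpow_natCast]
      _ = Real.sqrt (s + 1) := by
          rw [Real.sqrt_eq_rpow, hc]
          congr 1
          field_simp
  rcases lt_or_ge s s₁ with hlt | hge
  · have h1 : Real.log x ^ c ≤ s₁ := by
      refine hlogc.trans ?_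
      rw [Real.sqrt_le_left (by positivity)]
      have h2 : (s : ℝ) + 1 ≤ s₁ := by exact_mod_cast hlt
      have h3 : (1 : ℝ) ≤ s₁ := by
        have : 4 ≤ s₁ := le_max_right _ _
        have h4 : (4 : ℝ) ≤ s₁ := by exact_mod_cast this
        linarith
      nlinarith
    calc (A.card : ℝ) ≤ x := hAN
      _ = Real.exp s₁ * x * Real.exp (-(s₁ : ℝ)) := by
          rw [mul_right_comm, ← Real.exp_add, add_neg_cancel, Real.exp_zero, one_mul]
      _ ≤ Real.exp s₁ * x * Real.exp (-(Real.log x ^ c)) := by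
          refine mul_le_mul_of_nonneg_left (Real.exp_le_exp.2 (by linarith)) (by positivity)
      _ ≤ max 4 (Real.exp s₁) * x * Real.exp (-(Real.log x ^ c)) := by
          refine mul_le_mul_of_nonneg_right ?_ (Real.exp_pos _).le
          exact mul_le_mul_of_nonneg_right (le_max_right _ _) hx0
  · have hs4 : 4 ≤ s := (le_max_right _ _).trans hge
    have hss₀ : s₀ ≤ s := ((le_max_left _ _).trans (le_max_left _ _)).trans hge
    have hss₂ : s₂ ≤ s := ((le_max_right _ _).trans (le_max_left _ _)).trans hge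
    have hsR : (4 : ℝ) ≤ s := by exact_mod_cast hs4
    have hs0 : (0 : ℝ) < s := by linarith
    have hlogs : Real.log x ^ c ≤ s * Real.log 2 := by
      refine hlogc.trans ?_
      rw [Real.sqrt_le_left (by positivity)]
      have h5 : 0.69 * (s : ℝ) ≤ s * Real.log 2 := by nlinarith
      have h6 : (0.69 * (s : ℝ)) ^ 2 ≤ (s * Real.log 2) ^ 2 := pow_le_pow_left₀ (by positivity) h5 2
      nlinarith
    have hMs : M ≤ s := by
      rw [hM]
      refine Nat.floor_le_of_le ?_
      refine hlogs.trans ?_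
      nlinarith
    have hZlow : ((2 ^ (s ^ 12) : ℕ) : ℝ) ≤ Z := by
      have h1 : (s : ℝ) ^ D * Real.log 2 ≤ Real.log x := by
        have h2 : (2 : ℝ) ^ (s ^ D) ≤ x := by
          have h3 : ((2 ^ (s ^ D) : ℕ) : ℝ) ≤ N := by exact_mod_cast hNlow
          push_cast at h3
          linarith
        have h3 := Real.log_le_log (by positivity) h2
        rw [Real.log_pow] at h3
        push_cast at h3
        exact h3
      have h2 : (s : ℝ) ^ 12 * Real.log 2 ≤ Real.log x ^ ε := by
        calc (s : ℝ) ^ 12 * Real.log 2 ≤ (s : ℝ) ^ 12 * 1 :=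
              mul_le_mul_of_nonneg_left hl2'.le (by positivity)
          _ ≤ (s : ℝ) ^ 12 * (s * Real.log 2 ^ ε) := by
              refine mul_le_mul_of_nonneg_left ?_ (by positivity)
              have h3 : (Real.log 2) ^ (-ε) ≤ s := hs₂.trans (by exact_mod_cast hss₂)
              have h4 : (0 : ℝ) < Real.log 2 ^ ε := Real.rpow_pos_of_pos hl2 _
              calc (1 : ℝ) = (Real.log 2) ^ (-ε) * Real.log 2 ^ ε := by
                    rw [← Real.rpow_add hl2, neg_add_cancel, Real.rpow_zero]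
                _ ≤ s * Real.log 2 ^ ε := mul_le_mul_of_nonneg_right h3 h4.le
          _ = (s : ℝ) ^ (13 : ℝ) * Real.log 2 ^ ε := by
              rw [show (13 : ℝ) = ((13 : ℕ) : ℝ) by norm_num, Real.rpow_natCast]
              ring
          _ ≤ (s : ℝ) ^ ((D : ℝ) * ε) * Real.log 2 ^ ε := by
              refine mul_le_mul_of_nonneg_right ?_ (Real.rpow_nonneg hl2.le _)
              exact Real.rpow_le_rpow_of_exponent_le (by linarith) hDε
          _ = ((s : ℝ) ^ D * Real.log 2) ^ ε := by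
              rw [Real.mul_rpow (by positivity) hl2.le, Real.rpow_mul hs0.le, Real.rpow_natCast]
          _ ≤ Real.log x ^ ε := Real.rpow_le_rpow (by positivity) h1 hε.le
      calc ((2 ^ (s ^ 12) : ℕ) : ℝ) = Real.exp ((s : ℝ) ^ 12 * Real.log 2) := by
            rw [mul_comm, Real.exp_mul, Real.exp_log (by norm_num)]
            push_cast
            rw [← Real.rpow_natCast]
            push_cast
            rfl
        _ ≤ Z := Real.exp_le_exp.2 h2
    have hmain := hs₀ s hss₀ (hT s (by omega)) N (by omega) (by omega) A (by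
      intro n hn
      obtain ⟨h1, G, iG, iF, hcard, hser, hgcd⟩ := hAmem n hn
      refine ⟨h1, G, iG, inferInstance, by rw [Nat.card_eq_fintype_card, hcard], ?_, ?_⟩
      · have hserG : Ser s G := by
          rcases hser with h | h
          · exact hsol s (by omega) G iG inferInstance h
          · exact h.mono hMs
        exact hq s (by omega) G iG inferInstance hserG
      · have h2 : ((2 ^ (s ^ 12) : ℕ) : ℝ) <
            (Nat.gcd n (∑ H : {H : Subgroup G // H.Normal}, Nat.card H) : ℝ) :=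
          lt_of_le_of_lt hZlow hgcd
        rw [sum_subtype_nat G] at h2
        exact_mod_cast h2)
    have h2s : (0 : ℝ) < (2 : ℝ) ^ s := by positivity
    have hmain' : (A.card : ℝ) * (2 : ℝ) ^ s ≤ 4 * N := by exact_mod_cast hmain
    have h3 : (2 : ℝ) ^ s = Real.exp (s * Real.log 2) := by
      rw [mul_comm, Real.exp_mul, Real.exp_log (by norm_num), Real.rpow_natCast]
    calc (A.card : ℝ) ≤ 4 * N / (2 : ℝ) ^ s := by
          rw [le_div_iff₀ h2s]
          exact hmain'
      _ = 4 * N * Real.exp (-(s * Real.log 2)) := by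
          rw [h3, Real.exp_neg]
          rfl
      _ ≤ 4 * x * Real.exp (-(Real.log x ^ c)) := by
          refine mul_le_mul ?_ (Real.exp_le_exp.2 (by linarith)) (Real.exp_pos _).le (by positivity)
          linarith
      _ ≤ max 4 (Real.exp s₁) * x * Real.exp (-(Real.log x ^ c)) := by
          refine mul_le_mul_of_nonneg_right ?_ (Real.exp_pos _).le
          exact mul_le_mul_of_nonneg_right (le_max_left _ _) hx0

end Pool.Agent.Helper72.LGS
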