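import Pool.Agent.Helper72.LGS.Count
import Pool.Agent.Helper72.LG.Syl
import Pool.Agent.Helper72.LG.Good

/-!
# The typical numbers
-/

set_option autoImplicit false

namespace Pool.Agent.Helper72.LGS

open Subgroup Finset Pool.Agent.Helper72.LG

lemma cof_le {z n B w : ℕ} (hn : n ≠ 0) (hz : 1 ≤ z) (hBz : B ≤ z)
    (hsq : ∀ b, B < b → ¬ b ^ 2 ∣ n) (hw : n.primeFactors.card ≤ w) :
    cof z n ≤ B ^ 2 * z ^ w := by
  refine (cof_bounds (s := 2 ^ w + B ^ 2) hn hz hBz hsq ((card_le_card (filter_subset _ _)).trans hw)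
    (Nat.le_add_right _ _) ?_).2
  intro b hb hbB
  have h1 : (b ^ 2).divisors.card ≤ b ^ 2 := Nat.card_divisors_le_self _
  have h2 : b ^ 2 ≤ B ^ 2 := Nat.pow_le_pow_left hbB 2
  exact h1.trans (h2.trans (Nat.le_add_left _ _))

/-- removing a prime above `z` -/
lemma remove' {z n q : ℕ} (hn : n ≠ 0) (hq : q ∈ Sz z n)
    (hsq : ∀ p, z < p → p.Prime → ¬ p ^ 2 ∣ n) :
    n = n / q * q ∧ q ∉ Sz z (n / q) ∧ insert q (Sz z (n / q)) = Sz z n ∧
      cof z (n / q) = cof z n := by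
  obtain ⟨hqp, hqn, hzq⟩ := (mem_Sz hn).1 hq
  have h1 : n = n / q * q := (Nat.div_mul_cancel hqn).symm
  have hm0 : n / q ≠ 0 := by
    intro h
    rw [h, zero_mul] at h1
    exact hn h1
  have h2 : ¬ q ∣ n / q := by
    intro h
    apply hsq q hzq hqp
    rw [sq]
    conv_rhs => rw [h1]
    exact Nat.mul_dvd_mul_right h _
  have h3 : q ∉ Sz z (n / q) := fun h => h2 ((mem_Sz hm0).1 h).2.1
  have h4 : insert q (Sz z (n / q)) = Sz z n := by
    ext t
    rw [mem_insert, mem_Sz hm0, mem_Sz hn]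
    constructor
    · rintro (h | ⟨h5, h6, h7⟩)
      · rw [h]
        exact ⟨hqp, hqn, hzq⟩
      · exact ⟨h5, h6.trans (Nat.div_dvd_of_dvd hqn), h7⟩
    · rintro ⟨h5, h6, h7⟩
      by_cases htq : t = q
      · exact Or.inl htq
      · right
        refine ⟨h5, ?_, h7⟩
        rw [h1] at h6
        rcases (Nat.Prime.dvd_mul h5).1 h6 with h | h
        · exact h
        · exact absurd ((Nat.prime_dvd_prime_iff_eq h5 hqp).1 h) htq
  refine ⟨h1, h3, h4, ?_⟩
  unfold cof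
  rw [← h4, prod_insert h3, Nat.div_div_eq_div_mul]

/-- the value of a typical number at a prime dividing the sum -/
theorem exists_value {M n z q Kb : ℕ} (hn : n ≠ 0) {G : Type} [Group G] [Finite G]
    (hquot : ∀ (D : Subgroup G) (_ : D.Normal), Ser M (G ⧸ D))
    (hG : Nat.card G = n) (hsq : ∀ p, z < p → p.Prime → ¬ p ^ 2 ∣ n)
    (hdiv : ∀ p, z < p → p.Prime → p ∣ n → ∀ c, c ∣ n → c ≡ 1 [MOD p] → c = 1)
    (hq : q ∈ Sz z n) (hqσ : q ∣ ∑ H ∈ nsg G, Nat.card H) (hcof : cof z n ≤ Kb) :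
    ∃ v ∈ VS M Kb (Sz z (n / q)), v ≠ 0 ∧ q ∣ v ∧ v ≤ ∑ H ∈ nsg G, Nat.card H := by
  classical
  obtain ⟨-, h2, h3, -⟩ := remove' hn hq hsq
  have hex : ∀ p : ℕ, ∃ P : Subgroup G, p ∈ Sz z n → Lone P p := by
    intro p
    by_cases hp : p ∈ Sz z n
    · have hp' := (mem_Sz hn).1 hp
      obtain ⟨P, hP⟩ := exists_lone (G := G) hp'.1 (by rw [hG]; exact hp'.2.1)
        (by rw [hG]; exact hsq p hp'.2.2 hp'.1) (by
          rw [hG]
          exact hdiv p hp'.2.2 hp'.1 hp'.2.1)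
      exact ⟨P, fun _ => hP⟩
    · exact ⟨⊥, fun h => absurd h hp⟩
  choose P hP using hex
  set D : Subgroup G := (Sz z n).sup P with hD
  have hDn : D.Normal := by
    rw [hD]
    refine Finset.sup_induction (p := fun H : Subgroup G => H.Normal) ?_ ?_ ?_
    · infer_instance
    · intro a ha b hb
      infer_instance
    · intro p hp
      exact (hP p hp).normal
  have hDc : Nat.card D = ∏ p ∈ Sz z n, p := card_sup_prod hP
  have hX : Nat.card (G ⧸ D) = cof z n := by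
    have e3 := prod_Sz_pos z hn
    have e4 : cof z n * ∏ p ∈ Sz z n, p = Nat.card (G ⧸ D) * ∏ p ∈ Sz z n, p := by
      calc cof z n * ∏ p ∈ Sz z n, p = n := (eq_cof_mul z hn).symm
        _ = Nat.card (G ⧸ D) * Nat.card D := by
            rw [← hG]
            exact Subgroup.card_eq_card_quotient_mul_card_subgroup D
        _ = _ := by rw [hDc]
    exact (Nat.eq_of_mul_eq_mul_right e3 e4).symm
  have hσ := sigma_eq hP (D := D) hD
  set K : ℕ → Subgroup (G ⧸ D) := fun p => (centralizer (P p : Set G)).map (QuotientGroup.mk' D) with hK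
  have hq0 : 0 < q := ((mem_Sz hn).1 hq).1.pos
  refine ⟨VV (G ⧸ D) (Sz z (n / q)) K (K q), ?_, ?_, ?_, ?_⟩
  · exact ⟨G ⧸ D, inferInstance, inferInstance, K, K q, by rw [hX]; exact hcof, hquot D hDn, rfl⟩
  · have hnq : n / q ≠ 0 := by
      intro h
      have := (remove' hn hq hsq).1
      rw [h, zero_mul] at this
      exact hn this
    exact (VV_pos (fun p hp => ((mem_Sz hnq).1 hp).1.pos)).ne'
  · refine dvd_VV h2 ?_
    rw [h3, ← hσ]
    exact hqσ
  · rw [hσ, ← h3]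
    exact VV_le h2 hq0

lemma sigma_le {G : Type*} [Group G] [Finite G] {N : ℕ} (h : Nat.card G ≤ N) :
    ∑ H ∈ nsg G, Nat.card H ≤ N ^ Nat.log 2 N * N := by
  classical
  have : Fintype (Subgroup G) := Fintype.ofFinite _
  calc ∑ H ∈ nsg G, Nat.card H ≤ ∑ _H ∈ nsg G, N := by
        refine sum_le_sum fun H _ => ?_
        exact (Subgroup.card_le_card_group H).trans h
    _ = (nsg G).card * N := by rw [sum_const, smul_eq_mul]
    _ ≤ Nat.card (Subgroup G) * N := by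
        refine Nat.mul_le_mul_right _ ?_
        rw [Nat.card_eq_fintype_card]
        exact card_le_univ _
    _ ≤ _ := Nat.mul_le_mul_right _ (card_sub_le h)

lemma poly_le (k : ℕ) : ∃ s₀ : ℕ, ∀ s, s₀ ≤ s → (s + 1) ^ k ≤ 2 ^ s := by
  have h1 := tendsto_pow_const_div_const_pow_of_one_lt k (r := 2) (by norm_num)
  have h2 : ∀ᶠ n : ℕ in Filter.atTop, (n : ℝ) ^ k / 2 ^ n < 1 / 2 := by
    exact (h1.eventually (gt_mem_nhds (by norm_num)))
  obtain ⟨s₀, hs₀⟩ := Filter.eventually_atTop.1 h2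
  refine ⟨s₀, fun s hs => ?_⟩
  have h3 := hs₀ (s + 1) (by omega)
  rw [div_lt_iff₀ (by positivity)] at h3
  have h4 : ((s + 1 : ℕ) : ℝ) ^ k ≤ (2 : ℝ) ^ s := by
    refine h3.le.trans (le_of_eq ?_)
    rw [pow_succ]
    ring
  exact_mod_cast h4

end Pool.Agent.Helper72.LGS
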