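import Pool.Agent.Helper72.LGS.Count
import Pool.Agent.Helper72.LGS.Main
import Pool.Agent.Helper83.LGS.Code
import Pool.Agent.Helper65.LGS.Ser

/-!
# The number of types, the form used in the theorem
-/

set_option autoImplicit false

namespace Pool.Agent.Helper72.LGS

theorem types_KB (s : ℕ) (hs : 1 ≤ s) : Types s (KB s) (TBf s) :=
  exists_types s (KB s) hs Nat.one_le_two_pow

theorem ser_quot (M : ℕ) (hM : 1 ≤ M) (G : Type) (iG : Group G) (iF : Finite G) (h : Ser M G)
    (E : Subgroup G) (iE : E.Normal) : Ser M (G ⧸ E) :=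
  ser_quotient hM h E

theorem ser_sol (M : ℕ) (hM : 1 ≤ M) (G : Type) (iG : Group G) (iF : Finite G)
    (h : Group.IsSolvable G) : Ser M G :=
  ser_of_solvable hM

end Pool.Agent.Helper72.LGS
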