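import Pool.Agent.Helper72.LG.Code

/-!
# The value at a prime
-/

set_option autoImplicit false

namespace Pool.Agent.Helper72.LGS

open Subgroup Finset Pool.Agent.Helper72.LG

open scoped Classical in
/-- the value -/
noncomputable def VV (X : Type*) [Group X] [Finite X] (S : Finset ℕ) (K : ℕ → Subgroup X)
    (L : Subgroup X) : ℕ :=
  ∑ H ∈ (nsg X).filter (fun H => H ≤ L), Nat.card H * ∏ p ∈ S, (p + if H ≤ K p then 1 else 0)

section

variable {G : Type*} [Group G] [Finite G]

lemma card_sup_prod {S : Finset ℕ} {P : ℕ → Subgroup G} (hP : ∀ p ∈ S, Lone (P p) p) :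
    Nat.card (S.sup P : Subgroup G) = ∏ p ∈ S, p := by
  classical
  induction S using Finset.induction_on with
  | empty => simp
  | insert q S hq ih =>
    have hS : ∀ p ∈ S, Lone (P p) p := fun p hp => hP p (mem_insert_of_mem hp)
    have hQ := hP q (mem_insert_self q S)
    have h1 := ih hS
    have h2 : ¬ P q ≤ S.sup P := by
      rw [hQ.le_iff, h1, Prime.dvd_finsetProd_iff hQ.prime.prime]
      rintro ⟨p, hp, hqp⟩
      have := (Nat.prime_dvd_prime_iff_eq hQ.prime (hS p hp).prime).1 hqp
      exact hq (this ▸ hp)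
    rw [Finset.sup_insert, sup_comm, hQ.card_sup h2, h1, prod_insert hq, mul_comm]

/-- the orders of a normal subgroup and its image -/
lemma card_eq_map {D : Subgroup G} [D.Normal] {H : Subgroup G} (hD : D ≤ H) :
    Nat.card H = Nat.card D * Nat.card (H.map (QuotientGroup.mk' D)) := by
  have h1 : (H.map (QuotientGroup.mk' D)).index = H.index :=
    Subgroup.index_map_eq H (QuotientGroup.mk'_surjective D) (by
      rw [QuotientGroup.ker_mk']
      exact hD)
  have h3 := (H.map (QuotientGroup.mk' D)).card_mul_index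
  have h4 := H.card_mul_index
  have h5 : Nat.card G = Nat.card (G ⧸ D) * Nat.card D :=
    Subgroup.card_eq_card_quotient_mul_card_subgroup D
  rw [h1] at h3
  have h6 : H.index ≠ 0 := Subgroup.index_ne_zero_of_finite
  refine Nat.eq_of_mul_eq_mul_right (Nat.pos_of_ne_zero h6) ?_
  rw [h4, h5, ← h3]
  ring

omit [Finite G] in
lemma map_le_iff {D : Subgroup G} [D.Normal] {H K : Subgroup G} (hD : D ≤ K) :
    H.map (QuotientGroup.mk' D) ≤ K.map (QuotientGroup.mk' D) ↔ H ≤ K := by
  rw [Subgroup.map_le_map_iff, QuotientGroup.ker_mk', sup_eq_left.2 hD]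

/-- the sum over the normal subgroups as a sum over the normal subgroups of the quotient -/
theorem sigma_eq {S : Finset ℕ} {P : ℕ → Subgroup G} (hP : ∀ p ∈ S, Lone (P p) p)
    {D : Subgroup G} [hDn : D.Normal] (hD : D = S.sup P) :
    ∑ H ∈ nsg G, Nat.card H = VV (G ⧸ D) S
      (fun p => (centralizer (P p : Set G)).map (QuotientGroup.mk' D)) ⊤ := by
  classical
  have hDc : Nat.card D = ∏ p ∈ S, p := by
    rw [hD]
    exact card_sup_prod hP
  have hPD : ∀ p ∈ S, P p ≤ D := fun p hp => by
    rw [hD]
    exact Finset.le_sup hp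
  have hDC : ∀ p ∈ S, D ≤ centralizer (P p : Set G) := by
    intro q hq
    rw [hD]
    refine Finset.sup_le fun p hp => ?_
    by_cases hpq : p = q
    · rw [hpq]
      exact (hP q hq).self_le
    · exact (hP q hq).le_centralizer (hP p hp).normal
        ((hP q hq).not_le (hP p hp) (fun h => hpq h.symm))
  have habove : ∀ H, H ∈ above S P ↔ H.Normal ∧ D ≤ H := by
    intro H
    rw [mem_above]
    refine and_congr_right fun _ => ?_
    constructor
    · intro h
      rw [hD]
      exact Finset.sup_le h
    · intro h p hp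
      exact (hPD p hp).trans h
  have h1 : ((∑ H ∈ nsg G, Nat.card H : ℕ) : ℝ) = ((VV (G ⧸ D) S
      (fun p => (centralizer (P p : Set G)).map (QuotientGroup.mk' D)) ⊤ : ℕ) : ℝ) := by
    unfold VV
    push_cast
    rw [sum_nsg S P hP]
    refine Finset.sum_bij (fun H _ => H.map (QuotientGroup.mk' D)) ?_ ?_ ?_ ?_
    · intro H hH
      rw [habove] at hH
      rw [mem_filter, mem_nsg]
      exact ⟨hH.1.map _ (QuotientGroup.mk'_surjective D), le_top⟩
    · intro H hH H' hH' heq
      rw [habove] at hH hH'
      have h2 := congrArg (Subgroup.comap (QuotientGroup.mk' D)) heq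
      rw [Subgroup.comap_map_eq, Subgroup.comap_map_eq, QuotientGroup.ker_mk', sup_eq_left.2 hH.2,
        sup_eq_left.2 hH'.2] at h2
      exact h2
    · intro J hJ
      rw [mem_filter, mem_nsg] at hJ
      refine ⟨J.comap (QuotientGroup.mk' D), ?_, ?_⟩
      · rw [habove]
        refine ⟨hJ.1.comap _, ?_⟩
        have : D = (QuotientGroup.mk' D).ker := (QuotientGroup.ker_mk' D).symm
        conv_lhs => rw [this]
        exact Subgroup.ker_le_comap _ _
      · exact Subgroup.map_comap_eq_self_of_surjective (QuotientGroup.mk'_surjective D) J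
    · intro H hH
      rw [habove] at hH
      rw [card_eq_map hH.2, hDc]
      unfold wt
      push_cast
      rw [mul_comm, mul_right_comm, ← prod_mul_distrib, mul_comm]
      congr 1
      refine prod_congr rfl fun p hp => ?_
      have hp0 : (p : ℝ) ≠ 0 := by exact_mod_cast (hP p hp).prime.ne_zero
      simp only [map_le_iff (hDC p hp)]
      split_ifs
      · field_simp
      · ring
  exact_mod_cast h1

/-- a prime divisor of the sum divides the value -/
theorem dvd_VV {X : Type*} [Group X] [Finite X] {S : Finset ℕ} {q : ℕ} (hq : q ∉ S)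
    {K : ℕ → Subgroup X} (h : q ∣ VV X (insert q S) K ⊤) : q ∣ VV X S K (K q) := by
  classical
  have h1 : VV X (insert q S) K ⊤ = q * (∑ H ∈ nsg X, Nat.card H * ∏ p ∈ S, (p + if H ≤ K p then 1 else 0)) +
      VV X S K (K q) := by
    unfold VV
    rw [sum_filter, sum_filter, mul_sum, ← sum_add_distrib]
    refine sum_congr rfl fun H _ => ?_
    rw [if_pos le_top, prod_insert hq]
    split_ifs <;> ring
  rw [h1] at h
  exact (Nat.dvd_add_right (Dvd.intro _ rfl)).1 h

theorem VV_pos {X : Type*} [Group X] [Finite X] {S : Finset ℕ} {K : ℕ → Subgroup X}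
    {L : Subgroup X} (hS : ∀ p ∈ S, 0 < p) : 0 < VV X S K L := by
  classical
  unfold VV
  refine sum_pos' (fun _ _ => Nat.zero_le _) ⟨⊥, ?_, ?_⟩
  · rw [mem_filter, mem_nsg]
    exact ⟨inferInstance, bot_le⟩
  · refine Nat.mul_pos Nat.card_pos (prod_pos fun p hp => ?_)
    have := hS p hp
    omega

theorem VV_le {X : Type*} [Group X] [Finite X] {S : Finset ℕ} {q : ℕ} (hq : q ∉ S) (hq0 : 0 < q)
    {K : ℕ → Subgroup X} : VV X S K (K q) ≤ VV X (insert q S) K ⊤ := by
  classical
  unfold VV
  rw [sum_filter, sum_filter]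
  refine sum_le_sum fun H _ => ?_
  rw [if_pos le_top, prod_insert hq]
  split_ifs
  · refine Nat.mul_le_mul_left _ ?_
    exact Nat.le_mul_of_pos_left _ (by omega)
  · exact Nat.zero_le _

/-- the value is an invariant -/
theorem VV_congr {X Y : Type*} [Group X] [Finite X] [Group Y] [Finite Y] (φ : X ≃* Y) (S : Finset ℕ)
    (K : ℕ → Subgroup X) (L : Subgroup X) :
    VV X S K L = VV Y S (fun p => (K p).map φ.toMonoidHom) (L.map φ.toMonoidHom) := by
  classical
  unfold VV
  have hinj : Function.Injective φ.toMonoidHom := φ.injective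
  have hsurj : Function.Surjective φ.toMonoidHom := φ.surjective
  refine Finset.sum_bij (fun H _ => H.map φ.toMonoidHom) ?_ ?_ ?_ ?_
  · intro H hH
    rw [mem_filter, mem_nsg] at hH ⊢
    exact ⟨hH.1.map _ hsurj, Subgroup.map_mono hH.2⟩
  · intro H _ H' _ heq
    exact Subgroup.map_injective hinj heq
  · intro J hJ
    rw [mem_filter, mem_nsg] at hJ
    refine ⟨J.comap φ.toMonoidHom, ?_, Subgroup.map_comap_eq_self_of_surjective hsurj J⟩
    rw [mem_filter, mem_nsg]
    refine ⟨hJ.1.comap _, ?_⟩
    rw [← Subgroup.map_le_map_iff_of_injective hinj, Subgroup.map_comap_eq_self_of_surjective hsurj]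
    exact hJ.2
  · intro H _
    have h1 : Nat.card (H.map φ.toMonoidHom) = Nat.card H :=
      Nat.card_congr (H.equivMapOfInjective φ.toMonoidHom hinj).toEquiv.symm
    rw [h1]
    congr 1
    refine prod_congr rfl fun p _ => ?_
    simp only [Subgroup.map_le_map_iff_of_injective hinj]

end

end Pool.Agent.Helper72.LGS
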